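import Mathlib

/-!
Definitions for MP_c527bb_lc: transitive closure logic `TC^1_0` (monadic transitive closure,
no parameters) on graphs, and the class of graphs used in the inexpressibility proof.
-/

namespace Pool.Agent.R554.TC

/-- Formulas of `TC^1_0` with `n` free variables.  In `tc φ s t` the formula `φ` has exactly the two
free variables `x = 0`, `y = 1` (no parameters). -/
inductive Fm : ℕ → Type
  | eq {n : ℕ} (i j : Fin n) : Fm n
  | adj {n : ℕ} (i j : Fin n) : Fm n
  | neg {n : ℕ} (φ : Fm n) : Fm n
  | and {n : ℕ} (φ ψ : Fm n) : Fm n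
  | ex {n : ℕ} (φ : Fm (n + 1)) : Fm n
  | tc {n : ℕ} (φ : Fm 2) (s t : Fin n) : Fm n

/-- Satisfaction.  `ex φ`: there is a value `v` of the new variable `0`. -/
def sat {V : Type} (G : SimpleGraph V) : {n : ℕ} → Fm n → (Fin n → V) → Prop
  | _, .eq i j, a => a i = a j
  | _, .adj i j, a => G.Adj (a i) (a j)
  | _, .neg φ, a => ¬ sat G φ a
  | _, .and φ ψ, a => sat G φ a ∧ sat G ψ a
  | _, .ex φ, a => ∃ v : V, sat G φ (Fin.cons v a)
  | _, .tc φ s t, a => Relation.TransGen (fun x y : V => sat G φ ![x, y]) (a s) (a t)

/-- `G` is 2-connected: `G - z` is connected for every vertex `z`. -/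
def TwoConn {V : Type} (G : SimpleGraph V) : Prop :=
  ∀ z : V, (G.induce {z}ᶜ).Preconnected

/-- `NBW G x u v n`: there is a non-backtracking walk with `n + 1` edges from `x` whose last edge
is `u → v`. -/
inductive NBW {V : Type} (G : SimpleGraph V) (x : V) : V → V → ℕ → Prop
  | base {v : V} : G.Adj x v → NBW G x x v 0
  | step {u v w : V} {n : ℕ} : NBW G x u v n → G.Adj v w → w ≠ u → NBW G x v w (n + 1)

/-- `Reach G k x y`: there is a walk with at most `k` edges from `x` to `y`. -/
inductive Reach {V : Type} (G : SimpleGraph V) (x : V) : ℕ → V → Prop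
  | refl (k : ℕ) : Reach G x k x
  | step {k : ℕ} {u v : V} : Reach G x k u → G.Adj u v → Reach G x (k + 1) v

/-- The class of graphs with parameter `g`: 4-regular, no closed non-backtracking walk with at most
`g` edges, any two vertices joined by a walk of positive even length, and for every set of at most
`g` vertices there is a vertex at distance more than `g` from all of them. -/
structure Good {V : Type} (g : ℕ) (G : SimpleGraph V) : Prop where
  deg : ∀ v : V, (G.neighborSet v).Finite ∧ (G.neighborSet v).ncard = 4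
  nb : ∀ (x u : V) (n : ℕ), n + 1 ≤ g → ¬ NBW G x u x n
  even : ∀ x y : V, Relation.TransGen (fun a b => ∃ m, G.Adj a m ∧ G.Adj m b) x y
  far : ∀ A : Finset V, A.card ≤ g → ∃ v : V, ∀ a ∈ A, ¬ Reach G a g v

end Pool.Agent.R554.TC
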