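import Pool.Agent.R554.TC.GraphsA

/-!
TC-G (helper422), part 2: the graph with a cut vertex.
-/

set_option autoImplicit false

namespace Pool.Agent.R554.TC
namespace TCG

open SimpleGraph Relation

section glue

variable {V : Type} {G : SimpleGraph V} {p q : V}

/-- `{x, y} = {p, q}` -/
def Opp (p q x y : V) : Prop := (x = p ∧ y = q) ∨ (x = q ∧ y = p)

lemma Opp.symm {x y : V} (h : Opp p q x y) : Opp p q y x := by
  rcases h with ⟨rfl, rfl⟩ | ⟨rfl, rfl⟩
  · exact Or.inr ⟨rfl, rfl⟩
  · exact Or.inl ⟨rfl, rfl⟩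

lemma Opp.adj (h0 : G.Adj p q) {x y : V} (h : Opp p q x y) : G.Adj x y := by
  rcases h with ⟨rfl, rfl⟩ | ⟨rfl, rfl⟩
  · exact h0
  · exact h0.symm

lemma opp_of {x : V} (h : x = p ∨ x = q) : ∃ y, Opp p q x y := by
  rcases h with rfl | rfl
  · exact ⟨q, Or.inl ⟨rfl, rfl⟩⟩
  · exact ⟨p, Or.inr ⟨rfl, rfl⟩⟩

lemma opp_of_ne {x y : V} (h1 : x = p ∨ x = q) (h2 : y = p ∨ y = q) (h : y ≠ x) :
    Opp p q x y := by
  rcases h1 with rfl | rfl <;> rcases h2 with rfl | rfl
  · exact absurd rfl h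
  · exact Or.inl ⟨rfl, rfl⟩
  · exact Or.inr ⟨rfl, rfl⟩
  · exact absurd rfl h

lemma Opp.left {x y : V} (h : Opp p q x y) : x = p ∨ x = q := by
  rcases h with ⟨rfl, rfl⟩ | ⟨rfl, rfl⟩ <;> simp

/-- adjacency of the graph with a subdivided edge -/
def DA (G : SimpleGraph V) (p q : V) : Option V → Option V → Prop
  | some x, some y => G.Adj x y ∧ ¬ Opp p q x y
  | none, some y => y = p ∨ y = q
  | some x, none => x = p ∨ x = q
  | none, none => False

/-- the graph with the subdivided edge `{p, q}` -/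
def DG (G : SimpleGraph V) (p q : V) : SimpleGraph (Option V) where
  Adj := DA G p q
  symm := ⟨by
    rintro (_ | x) (_ | y) h
    · exact h
    · exact h
    · exact h
    · exact ⟨h.1.symm, fun h2 => h.2 h2.symm⟩⟩
  loopless := ⟨by
    rintro (_ | x) h
    · exact h
    · exact G.loopless.irrefl _ h.1⟩

lemma nbw_adj {W : Type} {H : SimpleGraph W} {x u v : W} {n : ℕ} (h : NBW H x u v n) :
    H.Adj u v := by
  cases h with
  | base h => exact h
  | step _ h _ => exact h

lemma inv1 (h0 : G.Adj p q) {x : V} {u v : Option V} {n : ℕ} (h : NBW (DG G p q) (some x) u v n) :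
    (∃ u' v' n', u = some u' ∧ v = some v' ∧ n' ≤ n ∧ NBW G x u' v' n') ∨
    (∃ k v' n', u = none ∧ v = some v' ∧ Opp p q k v' ∧ n' ≤ n ∧ NBW G x k v' n') ∨
    (∃ u', u = some u' ∧ v = none ∧ (u' = p ∨ u' = q) ∧
      (x = u' ∨ ∃ w' n', n' < n ∧ NBW G x w' u' n' ∧ ¬ Opp p q w' u')) := by
  induction h with
  | @base v h1 =>
    rcases v with _ | v'
    · exact Or.inr (Or.inr ⟨x, rfl, rfl, h1, Or.inl rfl⟩)
    · exact Or.inl ⟨x, v', 0, rfl, rfl, le_rfl, NBW.base h1.1⟩
  | @step u v w n h1 h2 h3 ih =>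
    have ha := nbw_adj h1
    rcases ih with ⟨u', v', n', rfl, rfl, e1, e2⟩ | ⟨k, v', n', rfl, rfl, e0, e1, e2⟩ |
      ⟨u', rfl, rfl, e1, e2⟩
    · rcases w with _ | w'
      · refine Or.inr (Or.inr ⟨v', rfl, rfl, h2, Or.inr ⟨u', n', by omega, e2, ha.2⟩⟩)
      · refine Or.inl ⟨v', w', n' + 1, rfl, rfl, by omega, NBW.step e2 h2.1 fun h => h3 ?_⟩
        rw [h]
    · rcases w with _ | w'
      · exact absurd rfl h3
      · refine Or.inl ⟨v', w', n' + 1, rfl, rfl, by omega, NBW.step e2 h2.1 fun h => h2.2 ?_⟩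
        rw [h]
        exact e0.symm
    · rcases w with _ | w'
      · exact h2.elim
      · have h4 : w' ≠ u' := fun h => h3 (by rw [h])
        have h5 : Opp p q u' w' := opp_of_ne e1 h2 h4
        rcases e2 with rfl | ⟨w'', n', e2, e3, e4⟩
        · exact Or.inr (Or.inl ⟨x, w', 0, rfl, rfl, h5, Nat.zero_le _, NBW.base (h5.adj h0)⟩)
        · refine Or.inr (Or.inl ⟨u', w', n' + 1, rfl, rfl, h5, by omega,
            NBW.step e3 (h5.adj h0) fun h => e4 ?_⟩)
          rw [← h]
          exact h5.symm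

lemma inv2 (h0 : G.Adj p q) {g : ℕ} (hg : ∀ (x u : V) (n : ℕ), n + 1 ≤ g → ¬ NBW G x u x n)
    {u v : Option V} {n : ℕ} (h : NBW (DG G p q) none u v n) : n + 1 ≤ g →
    (∃ v', u = none ∧ v = some v' ∧ n = 0 ∧ (v' = p ∨ v' = q)) ∨
    (∃ u' v' j k m, u = some u' ∧ v = some v' ∧ Opp p q k j ∧ n = m + 1 ∧ NBW G k u' v' n ∧
      NBW G j u' v' m) := by
  induction h with
  | @base v h1 =>
    intro _
    rcases v with _ | v'
    · exact h1.elim
    · exact Or.inl ⟨v', rfl, rfl, rfl, h1⟩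
  | @step u v w n h1 h2 h3 ih =>
    intro hn
    rcases ih (by omega) with ⟨v', rfl, rfl, rfl, e1⟩ | ⟨u', v', j, k, m, rfl, rfl, e1, rfl, e2, e3⟩
    · rcases w with _ | w'
      · exact absurd rfl h3
      · obtain ⟨k, hk⟩ := opp_of e1
        refine Or.inr ⟨v', w', v', k, 0, rfl, rfl, hk.symm, rfl, ?_, NBW.base h2.1⟩
        refine NBW.step (NBW.base (hk.symm.adj h0)) h2.1 fun h => h2.2 ?_
        rw [h]
        exact hk
    · rcases w with _ | w'
      · exfalso
        have h4 : v' = p ∨ v' = q := h2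
        have h5 : v' = j ∨ v' = k := by
          rcases e1 with ⟨rfl, rfl⟩ | ⟨rfl, rfl⟩ <;> rcases h4 with rfl | rfl <;> simp
        rcases h5 with rfl | rfl
        · exact hg _ _ _ (by omega) e3
        · exact hg _ _ _ (by omega) e2
      · have h4 : w' ≠ u' := fun h => h3 (by rw [h])
        exact Or.inr ⟨v', w', j, k, m + 1, rfl, rfl, e1, rfl, NBW.step e2 h2.1 h4,
          NBW.step e3 h2.1 h4⟩

lemma nb_D (h0 : G.Adj p q) {g : ℕ} (hg : ∀ (x u : V) (n : ℕ), n + 1 ≤ g → ¬ NBW G x u x n)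
    (x u : Option V) (n : ℕ) (hn : n + 1 ≤ g) : ¬ NBW (DG G p q) x u x n := by
  intro h
  rcases x with _ | x
  · rcases inv2 h0 hg h hn with ⟨v', -, h1, -⟩ | ⟨u', v', j, k, m, -, h1, -⟩
    · exact absurd h1 (by simp)
    · exact absurd h1 (by simp)
  · rcases inv1 h0 h with ⟨u', v', n', -, h1, h2, h3⟩ | ⟨k, v', n', -, h1, -, h2, h3⟩ |
      ⟨u', -, h1, -⟩
    · obtain rfl : x = v' := Option.some_inj.1 h1
      exact hg _ _ _ (by omega) h3
    · obtain rfl : x = v' := Option.some_inj.1 h1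
      exact hg _ _ _ (by omega) h3
    · exact absurd h1 (by simp)

/-- forget the side -/
def pr : Option (Bool × V) → Option V := Option.map Prod.snd

/-- same side -/
def SS : Option (Bool × V) → Option (Bool × V) → Prop
  | some x, some y => x.1 = y.1
  | _, _ => True

/-- two copies glued at the subdivision vertex -/
def HG (G : SimpleGraph V) (p q : V) : SimpleGraph (Option (Bool × V)) where
  Adj x y := (DG G p q).Adj (pr x) (pr y) ∧ SS x y
  symm := ⟨by
    rintro x y ⟨h1, h2⟩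
    refine ⟨h1.symm, ?_⟩
    rcases x with _ | x <;> rcases y with _ | y
    · trivial
    · trivial
    · trivial
    · exact (show x.1 = y.1 from h2).symm⟩
  loopless := ⟨fun x h => (DG G p q).loopless.irrefl _ h.1⟩

/-- on the side `i` or the cut vertex -/
def Sd (i : Bool) : Option (Bool × V) → Prop
  | some x => x.1 = i
  | none => True

lemma pr_inj {i : Bool} {x y : Option (Bool × V)} (hx : Sd i x) (hy : Sd i y) (h : pr x = pr y) :
    x = y := by
  rcases x with _ | ⟨a, x⟩ <;> rcases y with _ | ⟨b, y⟩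
  · rfl
  · simp [pr] at h
  · simp [pr] at h
  · have h1 : a = i := hx
    have h2 : b = i := hy
    have h3 : x = y := by simpa [pr] using h
    rw [h1, h2, h3]

lemma sd_next {i : Bool} {v' : V} {w : Option (Bool × V)}
    (h : SS (some (i, v')) w) : Sd i w := by
  rcases w with _ | ⟨j, w⟩
  · trivial
  · exact (show i = j from h).symm

lemma inv3 {i : Bool} {x : V} {g : ℕ}
    (hD : ∀ (x u : Option V) (n : ℕ), n + 1 ≤ g → ¬ NBW (DG G p q) x u x n)
    {u v : Option (Bool × V)} {n : ℕ} (h : NBW (HG G p q) (some (i, x)) u v n) : n + 1 ≤ g →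
    (Sd i u ∧ Sd i v ∧ NBW (DG G p q) (some x) (pr u) (pr v) n) ∨
    (∃ v' m, v = some (!i, v') ∧ Sd (!i) u ∧ m ≤ n ∧ NBW (DG G p q) none (pr u) (some v') m) := by
  induction h with
  | @base v h1 =>
    intro _
    exact Or.inl ⟨rfl, sd_next h1.2, NBW.base h1.1⟩
  | @step u v w n h1 h2 h3 ih =>
    intro hn
    rcases ih (by omega) with ⟨e1, e2, e3⟩ | ⟨v', m, rfl, e1, e2, e3⟩
    · rcases v with _ | ⟨i', v'⟩
      · rcases w with _ | ⟨j, w'⟩
        · exact h2.1.elim
        · by_cases hj : j = i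
          · subst hj
            refine Or.inl ⟨trivial, rfl, NBW.step e3 h2.1 fun h => h3 ?_⟩
            exact pr_inj (i := j) rfl e1 h
          · have hj' : j = !i := by
              cases i <;> cases j <;> simp_all
            subst hj'
            exact Or.inr ⟨w', 0, rfl, trivial, Nat.zero_le _, NBW.base h2.1⟩
      · obtain rfl : i' = i := e2
        have h4 : Sd i' w := sd_next h2.2
        exact Or.inl ⟨rfl, h4, NBW.step e3 h2.1 fun h => h3 (pr_inj h4 e1 h)⟩
    · have h4 : Sd (!i) w := sd_next h2.2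
      have h5 : NBW (DG G p q) none (some v') (pr w) (m + 1) :=
        NBW.step e3 h2.1 fun h => h3 (pr_inj h4 e1 h)
      rcases w with _ | ⟨j, w'⟩
      · exact absurd h5 (hD _ _ _ (by omega))
      · obtain rfl : j = !i := h4
        exact Or.inr ⟨w', m + 1, rfl, rfl, by omega, h5⟩

lemma inv4 {g : ℕ}
    (hD : ∀ (x u : Option V) (n : ℕ), n + 1 ≤ g → ¬ NBW (DG G p q) x u x n)
    {u v : Option (Bool × V)} {n : ℕ} (h : NBW (HG G p q) none u v n) : n + 1 ≤ g →
    ∃ i v', v = some (i, v') ∧ Sd i u ∧ NBW (DG G p q) none (pr u) (some v') n := by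
  induction h with
  | @base v h1 =>
    intro _
    rcases v with _ | ⟨i, v'⟩
    · exact h1.1.elim
    · exact ⟨i, v', rfl, trivial, NBW.base h1.1⟩
  | @step u v w n h1 h2 h3 ih =>
    intro hn
    obtain ⟨i, v', rfl, e1, e2⟩ := ih (by omega)
    have h4 : Sd i w := sd_next h2.2
    have h5 : NBW (DG G p q) none (some v') (pr w) (n + 1) :=
      NBW.step e2 h2.1 fun h => h3 (pr_inj h4 e1 h)
    rcases w with _ | ⟨j, w'⟩
    · exact absurd h5 (hD _ _ _ (by omega))
    · obtain rfl : j = i := h4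
      exact ⟨j, w', rfl, rfl, h5⟩

lemma nb_H {g : ℕ}
    (hD : ∀ (x u : Option V) (n : ℕ), n + 1 ≤ g → ¬ NBW (DG G p q) x u x n)
    (x u : Option (Bool × V)) (n : ℕ) (hn : n + 1 ≤ g) : ¬ NBW (HG G p q) x u x n := by
  intro h
  rcases x with _ | ⟨i, x⟩
  · obtain ⟨i, v', h1, -⟩ := inv4 hD h hn
    exact absurd h1 (by simp)
  · rcases inv3 hD h hn with ⟨-, -, h1⟩ | ⟨v', m, h1, -⟩
    · exact hD _ _ _ hn h1
    · have h2 := Option.some_inj.1 h1
      have h3 := congrArg Prod.fst h2
      simp at h3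

lemma adj_some {i : Bool} {x y : V} (h : G.Adj x y) (h2 : ¬ Opp p q x y) :
    (HG G p q).Adj (some (i, x)) (some (i, y)) := ⟨⟨h, h2⟩, rfl⟩

lemma adj_none {i : Bool} {x : V} (h : x = p ∨ x = q) :
    (HG G p q).Adj (some (i, x)) none := ⟨h, trivial⟩

lemma deg_H (h0 : G.Adj p q) (hd : ∀ v : V, (G.neighborSet v).Finite ∧
    (G.neighborSet v).ncard = 4) (v : Option (Bool × V)) :
    ((HG G p q).neighborSet v).Finite ∧ ((HG G p q).neighborSet v).ncard = 4 := by
  classical
  rcases v with _ | ⟨i, x⟩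
  · have h1 : (HG G p q).neighborSet none =
        Set.range fun t : Bool × Bool => some (t.1, if t.2 = true then p else q) := by
      ext w
      constructor
      · intro h
        rcases w with _ | ⟨j, w⟩
        · exact h.1.elim
        · rcases (show w = p ∨ w = q from h.1) with rfl | rfl
          · exact ⟨(j, true), by simp⟩
          · exact ⟨(j, false), by simp⟩
      · rintro ⟨⟨j, t⟩, rfl⟩
        cases t
        · exact ⟨Or.inr rfl, trivial⟩
        · exact ⟨Or.inl rfl, trivial⟩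
    rw [h1]
    refine ⟨Set.finite_range _, ?_⟩
    rw [← Set.image_univ, Set.ncard_image_of_injective, Set.ncard_univ]
    · simp
    · rintro ⟨a, s⟩ ⟨b, t⟩ h
      have hpq := h0.ne
      simp only [Option.some.injEq, Prod.mk.injEq] at h
      obtain ⟨rfl, h2⟩ := h
      cases s <;> cases t <;> simp_all
  · have h1 : (HG G p q).neighborSet (some (i, x)) =
        (fun y => if Opp p q x y then none else some (i, y)) '' G.neighborSet x := by
      ext w
      constructor
      · intro h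
        rcases w with _ | ⟨j, w⟩
        · obtain ⟨y, hy⟩ := opp_of (show x = p ∨ x = q from h.1)
          exact ⟨y, hy.adj h0, if_pos hy⟩
        · obtain rfl : i = j := h.2
          have h2 : G.Adj x w ∧ ¬ Opp p q x w := h.1
          exact ⟨w, h2.1, if_neg h2.2⟩
      · rintro ⟨y, hy, rfl⟩
        by_cases h2 : Opp p q x y
        · simp only [if_pos h2]
          exact adj_none h2.left
        · simp only [if_neg h2]
          exact adj_some hy h2
    rw [h1]
    refine ⟨(hd x).1.image _, ?_⟩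
    rw [Set.ncard_image_of_injOn, (hd x).2]
    intro y _ z _ h
    by_cases h2 : Opp p q x y <;> by_cases h3 : Opp p q x z
    · have hpq := h0.ne
      rcases h2 with ⟨h4, h5⟩ | ⟨h4, h5⟩ <;> rcases h3 with ⟨h6, h7⟩ | ⟨h6, h7⟩
      · rw [h5, h7]
      · exact absurd (h4.symm.trans h6) hpq
      · exact absurd (h6.symm.trans h4) hpq
      · rw [h5, h7]
    · simp [h2, h3] at h
    · simp [h2, h3] at h
    · simpa [h2, h3] using h

lemma reach_H (h0 : G.Adj p q) {i : Bool} {x y : V} (w : G.Walk x y) :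
    (HG G p q).Reachable (some (i, x)) (some (i, y)) := by
  induction w with
  | nil => exact Reachable.refl _
  | @cons x y z h w ih =>
    refine Reachable.trans ?_ ih
    by_cases h2 : Opp p q x y
    · exact (adj_none h2.left).reachable.trans (adj_none h2.symm.left).symm.reachable
    · exact (adj_some h h2).reachable

lemma conn_H (h0 : G.Adj p q) (hc : G.Preconnected) : (HG G p q).Preconnected := by
  have key : ∀ x : Option (Bool × V), (HG G p q).Reachable x none := by
    rintro (_ | ⟨i, x⟩)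
    · exact Reachable.refl _
    · obtain ⟨w⟩ := hc x p
      exact (reach_H h0 w).trans (adj_none (Or.inl rfl)).reachable
  exact fun x y => (key x).trans (key y).symm

lemma side_const {x y : ({none}ᶜ : Set (Option (Bool × V)))}
    (w : ((HG G p q).induce {none}ᶜ).Walk x y) : x.1.map Prod.fst = y.1.map Prod.fst := by
  induction w with
  | nil => rfl
  | @cons x y z h w ih =>
    rw [← ih]
    obtain ⟨x, hx⟩ := x
    obtain ⟨y, hy⟩ := y
    have h1 : (HG G p q).Adj x y := h
    rcases x with _ | ⟨i, x⟩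
    · exact absurd rfl hx
    · rcases y with _ | ⟨j, y⟩
      · exact absurd rfl hy
      · have h2 : i = j := h1.2
        simp [h2]

lemma not_two_H : ¬ TwoConn (HG G p q) := by
  intro h
  have hs : ∀ i : Bool, (some (i, p) : Option (Bool × V)) ∈
      ({none}ᶜ : Set (Option (Bool × V))) := by
    intro i
    simp
  obtain ⟨w⟩ := h none ⟨some (false, p), hs false⟩ ⟨some (true, p), hs true⟩
  have h1 := side_const w
  simp at h1

lemma good_H [Fintype V] (h0 : G.Adj p q) {g : ℕ}
    (hd : ∀ v : V, (G.neighborSet v).Finite ∧ (G.neighborSet v).ncard = 4)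
    (hg : ∀ (x u : V) (n : ℕ), n + 1 ≤ g → ¬ NBW G x u x n)
    (hc : G.Preconnected) (hcard : g * 5 ^ g < Fintype.card V)
    (f : ℕ → V) (m : ℕ) (hm : Odd m) (hf : ∀ j, j < m → G.Adj (f j) (f (j + 1)))
    (hf2 : ∀ j, j < m → ¬ Opp p q (f j) (f (j + 1))) (hfm : f m = f 0) :
    Good g (HG G p q) := by
  have hdeg := deg_H h0 hd
  refine ⟨hdeg, nb_H (nb_D h0 hg), ?_, ?_⟩
  · obtain ⟨w, hw⟩ := bwalk' (G := HG G p q) (fun j => some (false, f j)) m
      (fun j hj => adj_some (hf j hj) (hf2 j hj)) (x := some (false, f 0))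
      (y := some (false, f 0)) rfl (by simp only [hfm])
    refine even_of (conn_H h0 hc) w (by rw [hw]; exact hm) fun v => ?_
    have h1 : ((HG G p q).neighborSet v).Nonempty := by
      rw [← Set.ncard_pos (hdeg v).1, (hdeg v).2]
      norm_num
    exact h1
  · intro A hA
    refine far_of_card hdeg ?_ A hA
    rw [Fintype.card_option, Fintype.card_prod, Fintype.card_bool]
    omega

end glue

end TCG

theorem exists_not_twoConn (g : ℕ) :
    ∃ (n : ℕ) (G : SimpleGraph (Fin n)), Good g G ∧ ¬ TwoConn G := by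
  obtain ⟨M, hM, h1, h2⟩ := TCG.exists_M g
  obtain ⟨a, ha⟩ : ∃ a, a = TCG.ge M (false, true) := ⟨_, rfl⟩
  have h0 : (TCG.Cg M).Adj 1 a := by
    have := TCG.adj_C hM (false, true) 1
    rwa [mul_one, ← ha] at this
  obtain ⟨n, H, ⟨e⟩⟩ := TCG.to_fin (TCG.HG (TCG.Cg M) 1 a)
  refine ⟨n, H, TCG.good_iso e ?_, fun h => TCG.not_two_H (TCG.two_iso e.symm h)⟩
  refine TCG.good_H h0 (TCG.deg_C hM) (TCG.nb_C h1) (TCG.conn_C hM) ?_
    (fun j => TCG.ge M (true, true) ^ j) (3 ^ M) (Odd.pow (by decide)) ?_ ?_ ?_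
  · rw [← Nat.card_eq_fintype_card]
    exact h2.trans_le (TCG.card_C M)
  · intro j _
    simp only [pow_succ']
    exact TCG.adj_C hM _ _
  · rintro j _ (⟨-, h⟩ | ⟨h, -⟩)
    · rw [ha] at h
      exact TCG.a_not_pow hM _ h
    · rw [ha] at h
      exact TCG.a_not_pow hM _ h
  · simp only [TCG.ge_order, pow_zero]

end Pool.Agent.R554.TC
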