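import Pool.Agent.R554.TC.Defs

/-! Logic part of MP_c527bb_lc (helper606): a formula of `TC^1_0` cannot distinguish two graphs of
the class `Good g` when `g` is large. -/

namespace Pool.Agent.R554.TC

namespace Logic

variable {V V' : Type}

/-! ### non-backtracking walks -/

/-- non-backtracking walk of length `n` -/
def NB (G : SimpleGraph V) (n : ℕ) (q : ℕ → V) : Prop :=
  (∀ i, i < n → G.Adj (q i) (q (i + 1))) ∧ (∀ i, i + 2 ≤ n → q i ≠ q (i + 2))

theorem NB.mono {G : SimpleGraph V} {n m : ℕ} {q : ℕ → V} (h : NB G n q) (hm : m ≤ n) :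
    NB G m q :=
  ⟨fun i hi => h.1 i (by omega), fun i hi => h.2 i (by omega)⟩

theorem NB.shift {G : SimpleGraph V} {n m : ℕ} {q : ℕ → V} (h : NB G n q) (hm : m ≤ n) :
    NB G (n - m) (fun i => q (i + m)) := by
  refine ⟨fun i hi => ?_, fun i hi => ?_⟩
  · have h1 := h.1 (i + m) (by omega)
    have e : i + 1 + m = i + m + 1 := by omega
    show G.Adj (q (i + m)) (q (i + 1 + m))
    rw [e]
    exact h1
  · have h1 := h.2 (i + m) (by omega)
    have e : i + 2 + m = i + m + 2 := by omega
    show q (i + m) ≠ q (i + 2 + m)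
    rw [e]
    exact h1

theorem NB.rev {G : SimpleGraph V} {n : ℕ} {q : ℕ → V} (h : NB G n q) :
    NB G n (fun i => q (n - i)) := by
  refine ⟨fun i hi => ?_, fun i hi => ?_⟩
  · have h1 := (h.1 (n - (i + 1)) (by omega)).symm
    have e : n - (i + 1) + 1 = n - i := by omega
    rwa [e] at h1
  · have h1 := (h.2 (n - (i + 2)) (by omega)).symm
    have e : n - (i + 2) + 2 = n - i := by omega
    rwa [e] at h1

theorem NB.cons {G : SimpleGraph V} {n : ℕ} {q : ℕ → V} (h : NB G n q) {x : V}
    (hx : G.Adj x (q 0)) (hx2 : 1 ≤ n → x ≠ q 1) :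
    NB G (n + 1) (fun i => if i = 0 then x else q (i - 1)) := by
  refine ⟨fun i hi => ?_, fun i hi => ?_⟩
  · rcases Nat.eq_zero_or_pos i with rfl | h0
    · simpa using hx
    · obtain ⟨j, rfl⟩ : ∃ j, i = j + 1 := ⟨i - 1, by omega⟩
      simpa using h.1 j (by omega)
  · rcases Nat.eq_zero_or_pos i with rfl | h0
    · simpa using hx2 (by omega)
    · obtain ⟨j, rfl⟩ : ∃ j, i = j + 1 := ⟨i - 1, by omega⟩
      simpa using h.2 j (by omega)

theorem NB.toNBW {G : SimpleGraph V} {n : ℕ} {q : ℕ → V} (h : NB G (n + 1) q) :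
    NBW G (q 0) (q n) (q (n + 1)) n := by
  induction n with
  | zero => exact NBW.base (h.1 0 (by omega))
  | succ m ih =>
    exact NBW.step (ih (h.mono (by omega))) (h.1 (m + 1) (by omega)) (h.2 m (by omega)).symm

theorem closed {g : ℕ} {G : SimpleGraph V} (hG : Good g G) {n : ℕ} {q : ℕ → V}
    (h : NB G n q) (hn : 1 ≤ n) (hg : n ≤ g) : q 0 ≠ q n := by
  obtain ⟨m, rfl⟩ : ∃ m, n = m + 1 := ⟨n - 1, by omega⟩
  intro he
  have h1 := h.toNBW
  rw [← he] at h1
  exact hG.nb _ _ _ hg h1

theorem closed' {g : ℕ} {G : SimpleGraph V} (hG : Good g G) {n : ℕ} {q : ℕ → V}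
    (h : NB G n q) (hg : n ≤ g) {i j : ℕ} (hij : i < j) (hj : j ≤ n) : q i ≠ q j := by
  have h1 := closed hG ((h.shift (m := i) (by omega)).mono (m := j - i) (by omega)) (by omega)
    (by omega)
  have e : j - i + i = j := by omega
  simpa [e] using h1

/-! ### reachability -/

theorem Reach_mono {G : SimpleGraph V} {x y : V} {k l : ℕ} (h : Reach G x k y) (hkl : k ≤ l) :
    Reach G x l y := by
  induction h generalizing l with
  | refl k => exact Reach.refl l
  | @step k u v hr hadj ih =>
    obtain ⟨m, rfl⟩ : ∃ m, l = m + 1 := ⟨l - 1, by omega⟩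
    exact Reach.step (ih (by omega)) hadj

theorem Reach_head {G : SimpleGraph V} {x y z : V} {k : ℕ} (hadj : G.Adj z x)
    (h : Reach G x k y) : Reach G z (k + 1) y := by
  induction h with
  | refl k => exact Reach.step (Reach.refl k) hadj
  | @step k u v hr hadj2 ih => exact Reach.step ih hadj2

theorem Reach_symm {G : SimpleGraph V} {x y : V} {k : ℕ} (h : Reach G x k y) :
    Reach G y k x := by
  induction h with
  | refl k => exact Reach.refl k
  | @step k u v hr hadj ih => exact Reach_head hadj.symm ih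

theorem NB.reach {G : SimpleGraph V} {n : ℕ} {q : ℕ → V} (h : NB G n q) :
    Reach G (q 0) n (q n) := by
  induction n with
  | zero => exact Reach.refl 0
  | succ m ih => exact Reach.step (ih (h.mono (by omega))) (h.1 m (by omega))

theorem exists_NB {G : SimpleGraph V} {x y : V} {k : ℕ} (h : Reach G x k y) :
    ∃ n ≤ k, ∃ q : ℕ → V, NB G n q ∧ q 0 = x ∧ q n = y := by
  induction h with
  | refl k => exact ⟨0, by omega, fun _ => x, ⟨fun i hi => by omega, fun i hi => by omega⟩,
      rfl, rfl⟩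
  | @step k u v hr hadj ih =>
    obtain ⟨n, hn, q, hq, h0, h1⟩ := ih
    by_cases hb : 1 ≤ n ∧ q (n - 1) = v
    · exact ⟨n - 1, by omega, q, hq.mono (by omega), h0, hb.2⟩
    · refine ⟨n + 1, by omega, fun i => if i ≤ n then q i else v, ⟨?_, ?_⟩, ?_, ?_⟩
      · intro i hi
        rcases Nat.lt_or_ge i n with h2 | h2
        · simpa [h2.le, Nat.succ_le_of_lt h2] using hq.1 i h2
        · have h3 : i = n := by omega
          subst h3
          simpa [h1] using hadj
      · intro i hi
        rcases Nat.lt_or_ge n (i + 2) with h2 | h2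
        · have h3 : n = i + 1 := by omega
          subst h3
          have h4 : q i ≠ v := fun h5 => hb ⟨by omega, by simpa using h5⟩
          simpa using h4
        · have h3 : i ≤ n := by omega
          simpa [h2, h3] using hq.2 i h2
      · simpa using h0
      · simp

/-! ### convex sets -/

/-- non-backtracking walks of length at most `R` with end points in `A` stay in `A` -/
def Conv (G : SimpleGraph V) (R : ℕ) (A : Set V) : Prop :=
  ∀ n ≤ R, ∀ q : ℕ → V, NB G n q → q 0 ∈ A → q n ∈ A → ∀ i ≤ n, q i ∈ A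

theorem Conv.mono {G : SimpleGraph V} {R R' : ℕ} {A : Set V} (h : Conv G R A) (hR : R' ≤ R) :
    Conv G R' A := fun n hn => h n (hn.trans hR)

theorem conv_near {g R : ℕ} {G : SimpleGraph V} (hG : Good g G) (hR2 : 2 ≤ R) (hRg : R ≤ g)
    {A : Set V} (hA : Conv G R A) {a v : V} (ha : a ∈ A) (hv : v ∉ A) (hav : G.Adj v a) :
    Conv G (R - 2) (insert v A) := by
  have one : ∀ n ≤ R - 2, ∀ q : ℕ → V, NB G n q → q 0 = v → q n ∈ A → ∀ i ≤ n,
      q i ∈ insert v A := by
    intro n hn q hq h0 hnA i hi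
    rcases Nat.eq_zero_or_pos i with rfl | hi0
    · left; exact h0
    have hn1 : 1 ≤ n := by omega
    by_cases h1 : q 1 = a
    · right
      have e1 : n - 1 + 1 = n := by omega
      have e2 : i - 1 + 1 = i := by omega
      have h2 := hA (n - 1) (by omega) _ (hq.shift hn1) (by simpa [h1] using ha)
        (by simpa [e1] using hnA) (i - 1) (by omega)
      simpa [e2] using h2
    · exfalso
      have h2 := hA (n + 1) (by omega) _ (hq.cons (x := a) (by rw [h0]; exact hav.symm)
        (fun _ h => h1 h.symm)) (by simpa using ha) (by simpa using hnA) 1 (by omega)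
      have h3 : v ∈ A := by simpa [h0] using h2
      exact hv h3
  intro n hn q hq h0 hnn i hi
  rcases h0 with h0 | h0 <;> rcases hnn with hnn | hnn
  · rcases Nat.eq_zero_or_pos n with rfl | hpos
    · have h3 : i = 0 := by omega
      subst h3
      left; exact h0
    · exact absurd (h0.trans hnn.symm) (closed hG hq hpos (by omega))
  · exact one n hn q hq h0 hnn i hi
  · have h2 := one n hn _ hq.rev (by simpa using hnn) (by simpa using h0) (n - i) (by omega)
    have e : n - (n - i) = i := by omega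
    simpa [e] using h2
  · right
    exact hA n (by omega) q hq h0 hnn i hi

theorem conv_far {g R k : ℕ} {G : SimpleGraph V} (hG : Good g G) (hRg : R ≤ g)
    {A : Set V} (hA : Conv G R A) {v : V} (hv : ∀ a ∈ A, ¬ Reach G a k v) :
    Conv G (min R k) (insert v A) := by
  intro n hn q hq h0 hnn i hi
  have hnR : n ≤ R := by omega
  have hnk : n ≤ k := by omega
  rcases h0 with h0 | h0 <;> rcases hnn with hnn | hnn
  · rcases Nat.eq_zero_or_pos n with rfl | hpos
    · have h3 : i = 0 := by omega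
      subst h3
      left; exact h0
    · exact absurd (h0.trans hnn.symm) (closed hG hq hpos (by omega))
  · exfalso
    have h2 := Reach_mono (Reach_symm hq.reach) hnk
    rw [h0] at h2
    exact hv _ hnn h2
  · exfalso
    have h2 := Reach_mono hq.reach hnk
    rw [hnn] at h2
    exact hv _ h0 h2
  · right
    exact hA n (by omega) q hq h0 hnn i hi

theorem adj_unique {R : ℕ} {G : SimpleGraph V} (hR2 : 2 ≤ R)
    {A : Set V} (hA : Conv G R A) {a v : V} (ha : a ∈ A) (hv : v ∉ A) (hav : G.Adj v a)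
    {y : V} (hy : y ∈ A) : G.Adj v y ↔ y = a := by
  constructor
  · intro h
    by_contra hne
    have h1 := hA 2 hR2 (fun i => if i = 0 then y else if i = 1 then v else a)
      ⟨by
        intro i hi
        have h3 : i = 0 ∨ i = 1 := by omega
        rcases h3 with rfl | rfl
        · simpa using h.symm
        · simpa using hav,
      by
        intro i hi
        have h3 : i = 0 := by omega
        subst h3
        simpa using hne⟩ (by simpa using hy) (by simpa using ha) 1 (by omega)
    have h2 : v ∈ A := by simpa using h1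
    exact hv h2
  · rintro rfl
    exact hav

/-! ### partial isomorphisms -/

/-- domain -/
def dom (S : Finset (V × V')) : Set V := {v | ∃ v', (v, v') ∈ S}

/-- range -/
def ran (S : Finset (V × V')) : Set V' := {v' | ∃ v, (v, v') ∈ S}

theorem mem_dom {S : Finset (V × V')} {v : V} {v' : V'} (h : (v, v') ∈ S) : v ∈ dom S := ⟨v', h⟩

theorem mem_ran {S : Finset (V × V')} {v : V} {v' : V'} (h : (v, v') ∈ S) : v' ∈ ran S := ⟨v, h⟩

theorem dom_insert [DecidableEq (V × V')] (S : Finset (V × V')) (v : V) (v' : V') :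
    dom (insert (v, v') S) = insert v (dom S) := by
  ext w
  constructor
  · rintro ⟨w', hw⟩
    rcases Finset.mem_insert.mp hw with h | h
    · left; exact (Prod.mk.inj h).1
    · right; exact ⟨w', h⟩
  · rintro (h | ⟨w', h⟩)
    · exact ⟨v', Finset.mem_insert.mpr (Or.inl (by rw [h]))⟩
    · exact ⟨w', Finset.mem_insert.mpr (Or.inr h)⟩

theorem ran_insert [DecidableEq (V × V')] (S : Finset (V × V')) (v : V) (v' : V') :
    ran (insert (v, v') S) = insert v' (ran S) := by
  ext w
  constructor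
  · rintro ⟨w', hw⟩
    rcases Finset.mem_insert.mp hw with h | h
    · left; exact (Prod.mk.inj h).2
    · right; exact ⟨w', h⟩
  · rintro (h | ⟨w', h⟩)
    · exact ⟨v, Finset.mem_insert.mpr (Or.inl (by rw [h]))⟩
    · exact ⟨w', Finset.mem_insert.mpr (Or.inr h)⟩

/-- partial isomorphism with `R`-convex domain and range -/
structure Inv (G : SimpleGraph V) (G' : SimpleGraph V') (R : ℕ) (S : Finset (V × V')) : Prop where
  bij : ∀ {x : V} {x' : V'} {y : V} {y' : V'}, (x, x') ∈ S → (y, y') ∈ S → (x = y ↔ x' = y')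
  adj : ∀ {x : V} {x' : V'} {y : V} {y' : V'}, (x, x') ∈ S → (y, y') ∈ S →
    (G.Adj x y ↔ G'.Adj x' y')
  cl : Conv G R (dom S)
  cr : Conv G' R (ran S)

theorem Inv.mono {G : SimpleGraph V} {G' : SimpleGraph V'} {R R' : ℕ} {S : Finset (V × V')}
    (h : Inv G G' R S) (hR : R' ≤ R) : Inv G G' R' S :=
  ⟨h.bij, h.adj, h.cl.mono hR, h.cr.mono hR⟩

/-- the inverse -/
def sw (S : Finset (V × V')) : Finset (V' × V) := S.map (Equiv.prodComm V V').toEmbedding

theorem mem_sw {S : Finset (V × V')} {x : V} {x' : V'} : (x', x) ∈ sw S ↔ (x, x') ∈ S := by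
  unfold sw
  constructor
  · intro h
    obtain ⟨⟨y, y'⟩, h1, h2⟩ := Finset.mem_map.mp h
    have h3 : ((y', y) : V' × V) = (x', x) := h2
    obtain ⟨rfl, rfl⟩ := Prod.mk.inj h3
    exact h1
  · intro h
    exact Finset.mem_map.mpr ⟨(x, x'), h, rfl⟩

theorem card_sw (S : Finset (V × V')) : (sw S).card = S.card := Finset.card_map _

theorem Inv.symm {G : SimpleGraph V} {G' : SimpleGraph V'} {R : ℕ} {S : Finset (V × V')}
    (h : Inv G G' R S) : Inv G' G R (sw S) := by
  have h1 : dom (sw S) = ran S := by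
    ext w
    constructor
    · rintro ⟨w', hw⟩; exact ⟨w', mem_sw.mp hw⟩
    · rintro ⟨w', hw⟩; exact ⟨w', mem_sw.mpr hw⟩
  have h2 : ran (sw S) = dom S := by
    ext w
    constructor
    · rintro ⟨w', hw⟩; exact ⟨w', mem_sw.mp hw⟩
    · rintro ⟨w', hw⟩; exact ⟨w', mem_sw.mpr hw⟩
  exact ⟨fun hx hy => (h.bij (mem_sw.mp hx) (mem_sw.mp hy)).symm,
    fun hx hy => (h.adj (mem_sw.mp hx) (mem_sw.mp hy)).symm, h1 ▸ h.cr, h2 ▸ h.cl⟩

theorem Inv.near {g R : ℕ} {G : SimpleGraph V} {G' : SimpleGraph V'} (hG : Good g G)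
    (hG' : Good g G') (hR2 : 2 ≤ R) (hRg : R ≤ g) [DecidableEq (V × V')] {S : Finset (V × V')}
    (hS : Inv G G' R S) {a v : V} {a' v' : V'} (ha : (a, a') ∈ S) (hv : v ∉ dom S)
    (hv' : v' ∉ ran S) (hav : G.Adj v a) (hav' : G'.Adj v' a') :
    Inv G G' (R - 2) (insert (v, v') S) := by
  have key : ∀ {y : V} {y' : V'}, (y, y') ∈ S → (G.Adj v y ↔ G'.Adj v' y') := by
    intro y y' hy
    rw [adj_unique hR2 hS.cl (mem_dom ha) hv hav (mem_dom hy),
      adj_unique hR2 hS.cr (mem_ran ha) hv' hav' (mem_ran hy)]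
    exact hS.bij hy ha
  refine ⟨?_, ?_, ?_, ?_⟩
  · intro x x' y y' hx hy
    rcases Finset.mem_insert.mp hx with h1 | h1 <;> rcases Finset.mem_insert.mp hy with h2 | h2
    · obtain ⟨rfl, rfl⟩ := Prod.mk.inj h1
      obtain ⟨rfl, rfl⟩ := Prod.mk.inj h2
      simp
    · obtain ⟨rfl, rfl⟩ := Prod.mk.inj h1
      constructor
      · rintro rfl; exact absurd (mem_dom h2) hv
      · rintro rfl; exact absurd (mem_ran h2) hv'
    · obtain ⟨rfl, rfl⟩ := Prod.mk.inj h2
      constructor
      · rintro rfl; exact absurd (mem_dom h1) hv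
      · rintro rfl; exact absurd (mem_ran h1) hv'
    · exact hS.bij h1 h2
  · intro x x' y y' hx hy
    rcases Finset.mem_insert.mp hx with h1 | h1 <;> rcases Finset.mem_insert.mp hy with h2 | h2
    · obtain ⟨rfl, rfl⟩ := Prod.mk.inj h1
      obtain ⟨rfl, rfl⟩ := Prod.mk.inj h2
      simp
    · obtain ⟨rfl, rfl⟩ := Prod.mk.inj h1
      exact key h2
    · obtain ⟨rfl, rfl⟩ := Prod.mk.inj h2
      rw [G.adj_comm, G'.adj_comm]
      exact key h1
    · exact hS.adj h1 h2
  · rw [dom_insert]
    exact conv_near hG hR2 hRg hS.cl (mem_dom ha) hv hav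
  · rw [ran_insert]
    exact conv_near hG' hR2 hRg hS.cr (mem_ran ha) hv' hav'

theorem exists_near {g R : ℕ} {G : SimpleGraph V} {G' : SimpleGraph V'} (hG : Good g G)
    (hG' : Good g G') {S : Finset (V × V')}
    (hS : Inv G G' R S) {a v : V} {a' : V'} (ha : (a, a') ∈ S) (hv : v ∉ dom S)
    (hav : G.Adj v a) : ∃ v' : V', v' ∉ ran S ∧ G'.Adj v' a' := by
  by_contra hcon
  push Not at hcon
  have h1 : ∀ y' ∈ G'.neighborSet a', ∃ y, (y, y') ∈ S := by
    intro y' hy'
    by_contra h
    exact hcon y' h (show G'.Adj a' y' from hy').symm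
  have hne : Nonempty V := ⟨v⟩
  choose! h hh using h1
  have hsub : ∀ y' ∈ G'.neighborSet a', h y' ∈ G.neighborSet a \ {v} := by
    intro y' hy'
    refine ⟨(hS.adj ha (hh y' hy')).mpr hy', ?_⟩
    intro he
    rw [Set.mem_singleton_iff] at he
    exact hv ⟨y', he ▸ hh y' hy'⟩
  have hinj : Set.InjOn h (G'.neighborSet a') := by
    intro y1 hy1 y2 hy2 he
    exact (hS.bij (hh y1 hy1) (hh y2 hy2)).mp he
  have hle := Set.ncard_le_ncard_of_injOn h hsub hinj ((hG.deg a).1.subset Set.sdiff_subset)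
  rw [(hG'.deg a').2, Set.ncard_sdiff_singleton_of_mem (show v ∈ G.neighborSet a from hav.symm), (hG.deg a).2] at hle
  omega

theorem extend_near {g R : ℕ} {G : SimpleGraph V} {G' : SimpleGraph V'} (hG : Good g G)
    (hG' : Good g G') (hRg : R ≤ g) {S : Finset (V × V')} (hS : Inv G G' R S)
    {a : V} {a' : V'} (ha : (a, a') ∈ S) {k : ℕ} {v : V} (hk : Reach G a k v) :
    2 * k ≤ R → ∃ S' : Finset (V × V'), S ⊆ S' ∧ S'.card ≤ S.card + k ∧
      Inv G G' (R - 2 * k) S' ∧ ∃ v' : V', (v, v') ∈ S' := by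
  induction hk with
  | refl k => intro _; exact ⟨S, subset_rfl, by omega, hS.mono (by omega), a', ha⟩
  | @step k u w hr hadj ih =>
    intro hk
    obtain ⟨S1, hsub, hcard, hI, u', hu'⟩ := ih (by omega)
    by_cases hw : w ∈ dom S1
    · obtain ⟨w', hw'⟩ := hw
      exact ⟨S1, hsub, by omega, hI.mono (by omega), w', hw'⟩
    · obtain ⟨w', hw', hadj'⟩ := exists_near hG hG' hI hu' hw hadj.symm
      classical
      refine ⟨insert (w, w') S1, hsub.trans (Finset.subset_insert _ _),
        (Finset.card_insert_le _ _).trans (by omega), ?_, w', Finset.mem_insert_self _ _⟩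
      have h1 := hI.near hG hG' (by omega) (by omega) hu' hw hw' hadj.symm hadj'
      exact h1.mono (by omega)

theorem Inv.far {g R k : ℕ} {G : SimpleGraph V} {G' : SimpleGraph V'} (hG : Good g G)
    (hG' : Good g G') (hk1 : 1 ≤ k) (hRg : R ≤ g) [DecidableEq (V × V')] {S : Finset (V × V')}
    (hS : Inv G G' R S) {v : V} {v' : V'} (hv : ∀ a ∈ dom S, ¬ Reach G a k v)
    (hv' : ∀ a' ∈ ran S, ¬ Reach G' a' k v') :
    Inv G G' (min R k) (insert (v, v') S) := by
  obtain ⟨l, rfl⟩ : ∃ l, k = l + 1 := ⟨k - 1, by omega⟩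
  have n1 : v ∉ dom S := fun h => hv v h (Reach.refl _)
  have n2 : v' ∉ ran S := fun h => hv' v' h (Reach.refl _)
  have key : ∀ {y : V} {y' : V'}, (y, y') ∈ S → (G.Adj v y ↔ G'.Adj v' y') := by
    intro y y' hy
    constructor
    · intro h
      exact absurd (Reach.step (Reach.refl l) h.symm) (hv y (mem_dom hy))
    · intro h
      exact absurd (Reach.step (Reach.refl l) h.symm) (hv' y' (mem_ran hy))
  refine ⟨?_, ?_, ?_, ?_⟩
  · intro x x' y y' hx hy
    rcases Finset.mem_insert.mp hx with h1 | h1 <;> rcases Finset.mem_insert.mp hy with h2 | h2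
    · obtain ⟨rfl, rfl⟩ := Prod.mk.inj h1
      obtain ⟨rfl, rfl⟩ := Prod.mk.inj h2
      simp
    · obtain ⟨rfl, rfl⟩ := Prod.mk.inj h1
      constructor
      · rintro rfl; exact absurd (mem_dom h2) n1
      · rintro rfl; exact absurd (mem_ran h2) n2
    · obtain ⟨rfl, rfl⟩ := Prod.mk.inj h2
      constructor
      · rintro rfl; exact absurd (mem_dom h1) n1
      · rintro rfl; exact absurd (mem_ran h1) n2
    · exact hS.bij h1 h2
  · intro x x' y y' hx hy
    rcases Finset.mem_insert.mp hx with h1 | h1 <;> rcases Finset.mem_insert.mp hy with h2 | h2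
    · obtain ⟨rfl, rfl⟩ := Prod.mk.inj h1
      obtain ⟨rfl, rfl⟩ := Prod.mk.inj h2
      simp
    · obtain ⟨rfl, rfl⟩ := Prod.mk.inj h1
      exact key h2
    · obtain ⟨rfl, rfl⟩ := Prod.mk.inj h2
      rw [G.adj_comm, G'.adj_comm]
      exact key h1
    · exact hS.adj h1 h2
  · rw [dom_insert]
    exact conv_far hG hRg hS.cl hv
  · rw [ran_insert]
    exact conv_far hG' hRg hS.cr hv'

theorem exists_far {g k : ℕ} {G' : SimpleGraph V'} (hG' : Good g G') (hk : k ≤ g)
    (S : Finset (V × V')) (hS : S.card ≤ g) : ∃ v' : V', ∀ a' ∈ ran S, ¬ Reach G' a' k v' := by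
  classical
  obtain ⟨v', hv'⟩ := hG'.far (S.image Prod.snd) (Finset.card_image_le.trans hS)
  refine ⟨v', ?_⟩
  rintro a' ⟨a, ha⟩ hr
  exact hv' a' (Finset.mem_image.mpr ⟨(a, a'), ha, rfl⟩) (Reach_mono hr hk)

theorem Inv.single {g : ℕ} {G : SimpleGraph V} {G' : SimpleGraph V'} (hG : Good g G)
    (hG' : Good g G') (u : V) (u' : V') : Inv G G' g {(u, u')} := by
  have hc : ∀ {W : Type} {H : SimpleGraph W} (w : W), Good g H → Conv H g {w} := by
    intro W H w hH n hn q hq h0 hnn i hi
    rw [Set.mem_singleton_iff] at h0 hnn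
    rcases Nat.eq_zero_or_pos n with rfl | hpos
    · have h3 : i = 0 := by omega
      subst h3
      exact h0
    · exact absurd (h0.trans hnn.symm) (closed hH hq hpos hn)
  have h1 : dom ({(u, u')} : Finset (V × V')) = {u} := by
    ext w
    constructor
    · rintro ⟨w', hw⟩
      exact (Prod.mk.inj (Finset.mem_singleton.mp hw)).1
    · intro hw
      rw [Set.mem_singleton_iff] at hw
      exact ⟨u', Finset.mem_singleton.mpr (by rw [hw])⟩
  have h2 : ran ({(u, u')} : Finset (V × V')) = {u'} := by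
    ext w
    constructor
    · rintro ⟨w', hw⟩
      exact (Prod.mk.inj (Finset.mem_singleton.mp hw)).2
    · intro hw
      rw [Set.mem_singleton_iff] at hw
      exact ⟨u, Finset.mem_singleton.mpr (by rw [hw])⟩
  refine ⟨?_, ?_, h1 ▸ hc u hG, h2 ▸ hc u' hG'⟩
  · intro x x' y y' hx hy
    obtain ⟨rfl, rfl⟩ := Prod.mk.inj (Finset.mem_singleton.mp hx)
    obtain ⟨rfl, rfl⟩ := Prod.mk.inj (Finset.mem_singleton.mp hy)
    simp
  · intro x x' y y' hx hy
    obtain ⟨rfl, rfl⟩ := Prod.mk.inj (Finset.mem_singleton.mp hx)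
    obtain ⟨rfl, rfl⟩ := Prod.mk.inj (Finset.mem_singleton.mp hy)
    simp

theorem Inv.walk {g R n : ℕ} {G : SimpleGraph V} {G' : SimpleGraph V'} (hG : Good g G)
    (hG' : Good g G') (hn : R + 2 * n ≤ g) {p : ℕ → V} {p' : ℕ → V'} (hp : NB G n p)
    (hp' : NB G' n p') : ∃ S : Finset (V × V'), Inv G G' R S ∧ S.card ≤ n + 1 ∧
      ∀ i ≤ n, (p i, p' i) ∈ S := by
  classical
  have main : ∀ m ≤ n, Inv G G' (R + 2 * (n - m))
      ((Finset.range (m + 1)).image (fun i => (p i, p' i))) := by
    intro m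
    induction m with
    | zero =>
      intro _
      have h1 : (Finset.range (0 + 1)).image (fun i => (p i, p' i)) = {(p 0, p' 0)} := by
        simp
      rw [h1]
      exact (Inv.single hG hG' (p 0) (p' 0)).mono (by omega)
    | succ m ih =>
      intro hm
      have h1 := ih (by omega)
      rw [Finset.range_add_one, Finset.image_insert]
      have hd : p (m + 1) ∉ dom ((Finset.range (m + 1)).image (fun i => (p i, p' i))) := by
        rintro ⟨w', hw⟩
        obtain ⟨i, hi, he⟩ := Finset.mem_image.mp hw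
        rw [Finset.mem_range] at hi
        exact closed' hG hp (by omega) hi hm (Prod.mk.inj he).1
      have hr : p' (m + 1) ∉ ran ((Finset.range (m + 1)).image (fun i => (p i, p' i))) := by
        rintro ⟨w', hw⟩
        obtain ⟨i, hi, he⟩ := Finset.mem_image.mp hw
        rw [Finset.mem_range] at hi
        exact closed' hG' hp' (by omega) hi hm (Prod.mk.inj he).2
      have hmem : (p m, p' m) ∈ (Finset.range (m + 1)).image (fun i => (p i, p' i)) :=
        Finset.mem_image.mpr ⟨m, Finset.mem_range.mpr (by omega), rfl⟩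
      have h2 := h1.near hG hG' (by omega) (by omega) hmem hd hr (hp.1 m (by omega)).symm
        (hp'.1 m (by omega)).symm
      exact h2.mono (by omega)
  refine ⟨_, (main n le_rfl).mono (by omega), ?_, ?_⟩
  · exact Finset.card_image_le.trans (by rw [Finset.card_range])
  · intro i hi
    exact Finset.mem_image.mpr ⟨i, Finset.mem_range.mpr (by omega), rfl⟩

theorem Good_mono {g g' : ℕ} {G : SimpleGraph V} (hG : Good g G) (hg : g' ≤ g) : Good g' G := by
  refine ⟨hG.deg, fun x u n hn => hG.nb x u n (hn.trans hg), hG.even, ?_⟩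
  intro A hA
  obtain ⟨v, hv⟩ := hG.far A (hA.trans hg)
  exact ⟨v, fun a ha hr => hv a ha (Reach_mono hr hg)⟩

theorem exists_nb {g : ℕ} {G : SimpleGraph V} (hG : Good g G) (m x y : V) :
    ∃ w, G.Adj m w ∧ w ≠ x ∧ w ≠ y := by
  by_contra h
  push Not at h
  have hsub : G.neighborSet m ⊆ {x, y} := by
    intro w hw
    by_cases hwx : w = x
    · left; exact hwx
    · right; exact h w hw hwx
  have h1 := Set.ncard_le_ncard hsub (Set.toFinite _)
  rw [(hG.deg m).2] at h1
  have h2 := Set.ncard_insert_le x {y}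
  rw [Set.ncard_singleton] at h2
  omega

theorem exists_ray {g : ℕ} {G : SimpleGraph V} (hG : Good g G) (m x y : V) :
    ∃ z : ℕ → V, z 0 = m ∧ (∀ i, G.Adj (z i) (z (i + 1))) ∧ (∀ i, z i ≠ z (i + 2)) ∧
      z 1 ≠ x ∧ z 1 ≠ y := by
  obtain ⟨w, hw, hwx, hwy⟩ := exists_nb hG m x y
  choose nx hnx using fun (p : V × V) => exists_nb hG p.2 p.1 p.1
  let F : ℕ → V × V := fun i => Nat.rec (m, w) (fun _ p => (p.2, nx p)) i
  have hF : ∀ i, F (i + 1) = ((F i).2, nx (F i)) := fun i => rfl
  refine ⟨fun i => (F i).1, rfl, ?_, ?_, hwx, hwy⟩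
  · intro i
    show G.Adj (F i).1 (F (i + 1)).1
    rw [hF]
    cases i with
    | zero => exact hw
    | succ j =>
      rw [hF]
      exact (hnx (F j)).1
  · intro i
    have e : (F (i + 2)).1 = nx (F i) := rfl
    show (F i).1 ≠ (F (i + 2)).1
    rw [e]
    exact (hnx (F i)).2.1.symm

/-! ### the induction on formulas -/

/-- the statement proved by induction on the formula -/
def P {n : ℕ} (φ : Fm n) : Prop :=
  ∃ R, 1 ≤ R ∧ ∀ N : ℕ, ∃ g, R ≤ g ∧ ∀ (V V' : Type) (G : SimpleGraph V) (G' : SimpleGraph V'),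
    Good g G → Good g G' → ∀ S : Finset (V × V'), Inv G G' R S → S.card ≤ N →
      ∀ (a : Fin n → V) (a' : Fin n → V'), (∀ i, (a i, a' i) ∈ S) →
        (sat G φ a ↔ sat G' φ a')

theorem P_ex {n : ℕ} (φ : Fm (n + 1)) (hφ : P φ) : P (Fm.ex φ) := by
  obtain ⟨R, hR, hN⟩ := hφ
  refine ⟨3 * R, by omega, fun N => ?_⟩
  obtain ⟨g1, hg1, H⟩ := hN (N + R + 1)
  refine ⟨max g1 (N + 3 * R + 1), by omega, ?_⟩
  have dir : ∀ (V V' : Type) (G : SimpleGraph V) (G' : SimpleGraph V'),
      Good (max g1 (N + 3 * R + 1)) G → Good (max g1 (N + 3 * R + 1)) G' →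
      ∀ S : Finset (V × V'), Inv G G' (3 * R) S → S.card ≤ N →
      ∀ (a : Fin n → V) (a' : Fin n → V'), (∀ i, (a i, a' i) ∈ S) →
        sat G (Fm.ex φ) a → sat G' (Fm.ex φ) a' := by
    intro V V' G G' hG hG' S hS hc a a' haa hsat
    obtain ⟨v, hv⟩ := hsat
    have fin : ∀ S' : Finset (V × V'), S ⊆ S' → Inv G G' R S' → S'.card ≤ N + R + 1 →
        ∀ v' : V', (v, v') ∈ S' → sat G' (Fm.ex φ) a' := by
      intro S' hsub hI hc' v' hv'
      refine ⟨v', ?_⟩
      refine (H V V' G G' (Good_mono hG (by omega)) (Good_mono hG' (by omega)) S' hI hc'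
        (Fin.cons v a) (Fin.cons v' a') ?_).mp hv
      intro i
      refine Fin.cases ?_ ?_ i
      · simpa using hv'
      · intro j
        simpa using hsub (haa j)
    by_cases hnear : ∃ y ∈ dom S, Reach G y R v
    · obtain ⟨y, ⟨y', hy⟩, hr⟩ := hnear
      obtain ⟨S', hsub, hcard, hI, v', hv'⟩ := extend_near hG hG' (by omega) hS hy hr (by omega)
      exact fin S' hsub (hI.mono (by omega)) (by omega) v' hv'
    · push Not at hnear
      obtain ⟨v', hv'⟩ := exists_far (k := R) hG' (by omega) S (by omega)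
      classical
      have hI := hS.far hG hG' hR (by omega) hnear hv'
      exact fin (insert (v, v') S) (Finset.subset_insert _ _) (hI.mono (by omega))
        ((Finset.card_insert_le _ _).trans (by omega)) v' (Finset.mem_insert_self _ _)
  intro V V' G G' hG hG' S hS hc a a' haa
  exact ⟨dir V V' G G' hG hG' S hS hc a a' haa,
    dir V' V G' G hG' hG (sw S) hS.symm (by rw [card_sw]; exact hc) a' a
      (fun i => mem_sw.mpr (haa i))⟩

theorem P_tc {n : ℕ} (φ : Fm 2) (s t : Fin n) (hφ : P φ) : P (Fm.tc φ s t) := by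
  obtain ⟨R, hR, hN⟩ := hφ
  obtain ⟨g1, hg1, H⟩ := hN (R + 2)
  refine ⟨1, le_rfl, fun N => ⟨max g1 (3 * R + 3), by omega, ?_⟩⟩
  have dir : ∀ (V V' : Type) (G : SimpleGraph V) (G' : SimpleGraph V'),
      Good (max g1 (3 * R + 3)) G → Good (max g1 (3 * R + 3)) G' →
      ∀ S : Finset (V × V'), Inv G G' 1 S →
      ∀ (a : Fin n → V) (a' : Fin n → V'), (∀ i, (a i, a' i) ∈ S) →
        sat G (Fm.tc φ s t) a → sat G' (Fm.tc φ s t) a' := by
    intro V V' G G' hG hG' S hS a a' haa hsat
    have H' : ∀ T : Finset (V × V'), Inv G G' R T → T.card ≤ R + 2 →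
        ∀ (x y : V) (x' y' : V'), (x, x') ∈ T → (y, y') ∈ T →
          (sat G φ ![x, y] ↔ sat G' φ ![x', y']) := by
      intro T hT hc x y x' y' hx hy
      refine H V V' G G' (Good_mono hG (by omega)) (Good_mono hG' (by omega)) T hT hc _ _ ?_
      intro i
      fin_cases i
      · exact hx
      · exact hy
    change Relation.TransGen (fun x y : V => sat G φ ![x, y]) (a s) (a t) at hsat
    show Relation.TransGen (fun x y : V' => sat G' φ ![x, y]) (a' s) (a' t)
    by_cases hne : ∃ u v : V, u ≠ v ∧ sat G φ ![u, v]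
    · obtain ⟨u, v, huv, hsuv⟩ := hne
      by_cases hr : Reach G u R v
      · -- near pair
        obtain ⟨k, hk, q, hq, hq0, hqk⟩ := exists_NB hr
        have hk1 : 1 ≤ k := by
          rcases Nat.eq_zero_or_pos k with rfl | h
          · exact absurd (hq0.symm.trans hqk) huv
          · exact h
        have hwalk : ∀ w : ℕ → V', NB G' k w → sat G' φ ![w 0, w k] := by
          intro w hw
          obtain ⟨T, hT, hc, hmem⟩ := Inv.walk (R := R) hG hG' (by omega) hq hw
          have h0 := hmem 0 (by omega)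
          have h1 := hmem k le_rfl
          rw [hq0] at h0
          rw [hqk] at h1
          exact (H' T hT (by omega) u v (w 0) (w k) h0 h1).mp hsuv
        have hstep : ∀ x y : V', (∃ m, G'.Adj x m ∧ G'.Adj m y) →
            Relation.TransGen (fun x y : V' => sat G' φ ![x, y]) x y := by
          rintro x y ⟨m, hxm, hmy⟩
          obtain ⟨z, hz0, hzadj, hznb, hzx, hzy⟩ := exists_ray hG' m x y
          obtain ⟨l, rfl⟩ : ∃ l, k = l + 1 := ⟨k - 1, by omega⟩
          have hz : NB G' l z := ⟨fun i _ => hzadj i, fun i _ => hznb i⟩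
          have hw1 := hwalk _ (hz.cons (x := x) (by rw [hz0]; exact hxm) (fun _ => hzx.symm))
          have hw2 := hwalk _ (hz.cons (x := y) (by rw [hz0]; exact hmy.symm)
            (fun _ => hzy.symm)).rev
          have hw1' : sat G' φ ![x, z l] := by simpa using hw1
          have hw2' : sat G' φ ![z l, y] := by simpa using hw2
          exact (Relation.TransGen.single hw1').tail hw2'
        have hev : ∀ y : V', Relation.TransGen (fun a b => ∃ m, G'.Adj a m ∧ G'.Adj m b) (a' s) y →
            Relation.TransGen (fun x y : V' => sat G' φ ![x, y]) (a' s) y := by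
          intro y hy
          induction hy with
          | single h => exact hstep _ _ h
          | tail _ h ih => exact ih.trans (hstep _ _ h)
        exact hev _ (hG'.even (a' s) (a' t))
      · -- far pair
        have hfar : ∀ x y : V', ¬ Reach G' x R y → sat G' φ ![x, y] := by
          intro x y hxy
          classical
          have h1 := (Inv.single hG hG' u x).far hG hG' (k := R) (v := v) (v' := y) hR le_rfl
            (by
              rintro w ⟨w', hw⟩
              obtain ⟨rfl, -⟩ := Prod.mk.inj (Finset.mem_singleton.mp hw)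
              exact hr)
            (by
              rintro w ⟨w', hw⟩
              obtain ⟨-, rfl⟩ := Prod.mk.inj (Finset.mem_singleton.mp hw)
              exact hxy)
          refine (H' _ (h1.mono (by omega)) ((Finset.card_insert_le _ _).trans ?_) u v x y
            ?_ ?_).mp hsuv
          · rw [Finset.card_singleton]; omega
          · exact Finset.mem_insert.mpr (Or.inr (Finset.mem_singleton.mpr rfl))
          · exact Finset.mem_insert_self _ _
        classical
        obtain ⟨z, hz⟩ := hG'.far {a' s, a' t} ((Finset.card_le_two).trans (by omega))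
        have hz1 : ¬ Reach G' (a' s) R z := fun h =>
          hz (a' s) (by simp) (Reach_mono h (by omega))
        have hz2 : ¬ Reach G' z R (a' t) := fun h =>
          hz (a' t) (by simp) (Reach_mono (Reach_symm h) (by omega))
        exact (Relation.TransGen.single (hfar _ _ hz1)).tail (hfar _ _ hz2)
    · push Not at hne
      have h1 : ∀ y : V, Relation.TransGen (fun x y : V => sat G φ ![x, y]) (a s) y →
          a s = y ∧ sat G φ ![a s, a s] := by
        intro y hy
        induction hy with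
        | @single b h =>
          by_cases he : a s = b
          · exact ⟨he, by rw [← he] at h; exact h⟩
          · exact absurd h (hne _ _ he)
        | @tail b c _ h ih =>
          obtain ⟨he, hs⟩ := ih
          by_cases he2 : b = c
          · exact ⟨he.trans he2, hs⟩
          · exact absurd h (hne _ _ he2)
      obtain ⟨he, hs⟩ := h1 _ hsat
      have he' : a' s = a' t := (hS.bij (haa s) (haa t)).mp he
      have hs' : sat G' φ ![a' s, a' s] :=
        (H' _ ((Inv.single hG hG' (a s) (a' s)).mono (by omega))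
          (by rw [Finset.card_singleton]; omega) _ _ _ _ (Finset.mem_singleton.mpr rfl)
          (Finset.mem_singleton.mpr rfl)).mp hs
      rw [← he']
      exact Relation.TransGen.single hs'
  intro V V' G G' hG hG' S hS hc a a' haa
  exact ⟨dir V V' G G' hG hG' S hS a a' haa,
    dir V' V G' G hG' hG (sw S) hS.symm a' a (fun i => mem_sw.mpr (haa i))⟩

theorem P_all {n : ℕ} (φ : Fm n) : P φ := by
  induction φ with
  | eq i j =>
    refine ⟨1, le_rfl, fun N => ⟨1, le_rfl, ?_⟩⟩
    intro V V' G G' _ _ S hS _ a a' haa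
    exact hS.bij (haa i) (haa j)
  | adj i j =>
    refine ⟨1, le_rfl, fun N => ⟨1, le_rfl, ?_⟩⟩
    intro V V' G G' _ _ S hS _ a a' haa
    exact hS.adj (haa i) (haa j)
  | neg φ ih =>
    obtain ⟨R, hR, h⟩ := ih
    refine ⟨R, hR, fun N => ?_⟩
    obtain ⟨g, hg, H⟩ := h N
    refine ⟨g, hg, ?_⟩
    intro V V' G G' hG hG' S hS hc a a' haa
    exact not_congr (H V V' G G' hG hG' S hS hc a a' haa)
  | and φ ψ ih1 ih2 =>
    obtain ⟨R1, hR1, h1⟩ := ih1
    obtain ⟨R2, hR2, h2⟩ := ih2
    refine ⟨max R1 R2, by omega, fun N => ?_⟩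
    obtain ⟨g1, hg1, H1⟩ := h1 N
    obtain ⟨g2, hg2, H2⟩ := h2 N
    refine ⟨max g1 g2, by omega, ?_⟩
    intro V V' G G' hG hG' S hS hc a a' haa
    exact and_congr
      (H1 V V' G G' (Good_mono hG (by omega)) (Good_mono hG' (by omega)) S
        (hS.mono (by omega)) hc a a' haa)
      (H2 V V' G G' (Good_mono hG (by omega)) (Good_mono hG' (by omega)) S
        (hS.mono (by omega)) hc a a' haa)
  | ex φ ih => exact P_ex φ ih
  | tc φ s t ih => exact P_tc φ s t ih

end Logic

open Logic in
theorem logic_main (φ : Fm 0) : ∃ g : ℕ, ∀ (V V' : Type) (G : SimpleGraph V)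
    (G' : SimpleGraph V'), Good g G → Good g G' → (sat G φ ![] ↔ sat G' φ ![]) := by
  obtain ⟨R, hR, h⟩ := P_all φ
  obtain ⟨g, hg, H⟩ := h 0
  refine ⟨g, ?_⟩
  intro V V' G G' hG hG'
  refine H V V' G G' hG hG' ∅ ⟨?_, ?_, ?_, ?_⟩ (by simp) _ _ (fun i => i.elim0)
  · intro x x' y y' hx
    simp at hx
  · intro x x' y y' hx
    simp at hx
  · rintro n hn q hq ⟨w, hw⟩
    simp at hw
  · rintro n hn q hq ⟨w, hw⟩
    simp at hw

end Pool.Agent.R554.TC
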